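import Pool.Agent.Q57.SP.Defs
import Pool.Agent.Q57.OP.Res
import Pool.Agent.Y133.Half.PairPred

/-!
# Classes of algebraic cycles of the reduction
-/

open CategoryTheory AlgebraicGeometry

universe u v u₀ v₀ w

namespace Pool.Agent.Q57.SP

open Module
open Pool.Agent.H914 Pool.Agent.H914.VarClass Pool.Agent.H914.VarClass.Obj
  Pool.Agent.H914.WeilCohomology
open Pool.Agent.Q55 (GaloisAction SubAction Virtually IsTate tatePred)
open Pool.Agent.Y133.Half
open Pool.Agent.Q57.ZI
open Pool.Agent.Q57.OP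

section One

variable {k : Type u} [Field k] {𝒱 : VarClass k} {ops : CycleOps 𝒱}
  {W : WeilCohomology.{u, v} ops} {X Y Z : 𝒱.Obj}

lemma span_le_gr (X : 𝒱.Obj) (j : ℕ) : spanCycles W X j ≤ W.gr X (2 * j) := by
  refine Submodule.span_le.2 ?_
  rintro _ ⟨p, hp, z, hz, rfl⟩
  obtain rfl : p = j := by exact_mod_cast hp
  exact W.cl_mem hz

lemma tr_mul_push (f : X ⟶ Y) (b : W.H Y) (w : W.H X) :
    W.tr Y (b * W.push f w) = W.tr X (W.map f b * w) := by
  refine gr_induction (W.isInternal Y) (p := fun b =>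
    W.tr Y (b * W.push f w) = W.tr X (W.map f b * w)) ?_ ?_ b
  · intro i b hb
    refine gr_induction (W.isInternal X) (p := fun w =>
      W.tr Y (b * W.push f w) = W.tr X (W.map f b * w)) ?_ ?_ w
    · intro j w hw
      have h1 := W.push_mem f hw
      rw [W.comm (W.map_mem f hb) hw, map_smul, ← W.tr_push, smul_eq_mul]
      by_cases hneg : (j : ℤ) + 2 * ((Y.dim : ℤ) - X.dim) < 0
      · rw [grZ_of_neg hneg, Submodule.mem_bot] at h1
        rw [h1, mul_zero, zero_mul, map_zero, mul_zero]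
      · obtain ⟨m, hm⟩ := Int.eq_ofNat_of_zero_le (not_lt.1 hneg)
        rw [hm, grZ_natCast] at h1
        rw [W.comm hb h1, map_smul, smul_eq_mul]
        congr 1
        have h2 : (j : ℤ) % 2 = (m : ℤ) % 2 := by omega
        have h3 : j % 2 = m % 2 := by exact_mod_cast h2
        rw [← pow_mod_orderOf, ← pow_mod_orderOf (-1 : W.K) (i * j)]
        have h4 : orderOf (-1 : W.K) = 2 := by
          rw [orderOf_neg_one, if_neg]
          rw [ringChar.eq_zero]
          decide
        rw [h4, Nat.mul_mod, Nat.mul_mod i j, h3]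
    · intro a c ha hc
      rw [map_add, mul_add, mul_add, map_add, map_add, ha, hc]
  · intro a c ha hc
    rw [add_mul, map_add, map_add, add_mul, map_add, ha, hc]

variable (W) in
/-- The algebraic classes as a property of homogeneous classes. -/
noncomputable def algPred : ClassPred W where
  P X j c := c ∈ W.gr X (2 * j) ∧ c ∈ (algSys W).C X
  gr h := h.1
  zero := ⟨Submodule.zero_mem _, Submodule.zero_mem _⟩
  add ha hb := ⟨Submodule.add_mem _ ha.1 hb.1, Submodule.add_mem _ ha.2 hb.2⟩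
  smul r _ ha := ⟨Submodule.smul_mem _ r ha.1, Submodule.smul_mem _ r ha.2⟩
  cl {X j z} hz := ⟨W.cl_mem hz, Pool.Agent.W536.RR.cl_mem_algSpan hz⟩
  mul {X i j a b} ha hb := ⟨by rw [mul_add]; exact W.mul_mem ha.1 hb.1, (algSys W).mul ha.2 hb.2⟩
  map {X Y} f {j a} ha := ⟨W.map_mem f ha.1, (algSys W).map f ha.2⟩
  push {X Y} f {j l} hl {a} ha := by
    refine ⟨?_, (algSys W).push f ha.2⟩
    have h1 := W.push_mem f ha.1
    rwa [show ((2 * j : ℕ) : ℤ) + 2 * ((Y.dim : ℤ) - X.dim) = ((2 * l : ℕ) : ℤ) by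
        omega, grZ_natCast] at h1

lemma algPred_iff {j : ℕ} {c : W.H X} : (algPred W).P X j c ↔ c ∈ spanCycles W X j := by
  constructor
  · rintro ⟨h1, h2⟩
    exact spanCycles_of_algSpan h2 h1
  · intro h
    refine ⟨span_le_gr X j h, ?_⟩
    have h1 : spanCycles W X j ≤ (algSys W).C X := by
      refine Submodule.span_le.2 ?_
      rintro _ ⟨p, hp, z, hz, rfl⟩
      exact Pool.Agent.W536.RR.cl_mem_algSpan hz
    exact h1 h

/-- **The index of a class of cohomology classes over the algebraic cycles.** -/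
theorem full_index (R : ClassPred W) (X : 𝒱.Obj) [Nontrivial (W.H X)] : ∃ N : ℕ∞, 1 ≤ N ∧
    HasIndex (fun n => dimBy W R.P (pw X n)) (fun n => cycRank ops (pw X n)) N ∧
    (N = 1 ↔ ∀ n, (∀ j c, R.P (pw X n) j c → c ∈ spanCycles W (pw X n) j) ∧
      HomEqNum W (pw X n)) ∧
    (N ≠ ⊤ → (∀ n, HomEqNum W (pw X n)) ∧ GeneratedOver W (algPred W).P R.P X N) := by
  obtain ⟨N, h1, h2, -, h4, h5⟩ := R.sys.index (fun _ => ClassPred.alg_le) X
  refine ⟨N, h1, h2, ?_, fun hN => ⟨h5 hN, ?_⟩⟩
  · rw [h4]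
    exact forall_congr' fun n => and_congr_left' (ClassPred.sp_eq_iff (Q := R) _)
  · have hH := h5 hN
    have hS : ∀ Z, (algPred W).sys.C Z = (algSys W).C Z := fun Z =>
      (ClassPred.sp_eq_iff (Q := algPred W) Z).2 fun j c hc => algPred_iff.1 hc
    have hnd : ∀ n, (algPred W).sys.Nondeg (pw X n) := by
      intro n
      have h6 := (homEqNum_iff (W := W) (pw X n)).1 (hH n)
      intro c hc hc'
      have h7 : c ∈ (algSys W).Num (pw X n) := by
        refine ⟨?_, ?_⟩
        · rw [← hS]; exact hc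
        · intro y hy
          refine hc' y ?_
          rw [hS]
          exact hy
      rw [h6, Submodule.mem_bot] at h7
      exact h7
    have hle : ∀ {Z : 𝒱.Obj} {j : ℕ} {c : W.H Z}, (algPred W).P Z j c → R.P Z j c := by
      intro Z j c hc
      exact ClassPred.of_sp (ClassPred.alg_le (Q := R) hc.2) hc.1
    obtain ⟨N', M', k1, k2, k3, k4, k5, k6, k7, -, -, k8, -⟩ :=
      (algPred W).tower R hle X hnd
    have e1 : ∀ n, dimBy W (algPred W).P (pw X n) = cycRank ops (pw X n) := by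
      intro n
      rw [(homEqNum_iff' (W := W) (pw X n)).1 (hH n), ClassPred.dimBy_eq, hS]
      rfl
    simp only [e1] at k3
    have h6 : N' = N := by
      have h7 := tendsto_nhds_unique k3 h2
      exact_mod_cast h7
    subst h6
    exact k8 hN

end One

section Spec

variable {k : Type u} [Field k] {𝒱 : VarClass k} {ops : CycleOps 𝒱}
  {k₀ : Type u₀} [Field k₀] {𝒱₀ : VarClass k₀} {ops₀ : CycleOps 𝒱₀}
  {W : WeilCohomology.{u, v} ops} {W₀ : WeilCohomology.{u₀, v₀} ops₀}
  (S : Specialization W W₀) {X Y Z : 𝒱.Obj}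

lemma alg_of_spec {X : 𝒱₀.Obj} {j : ℕ} {c : W₀.H X} (h : c ∈ spanCycles W₀ X j) :
    (algPred W₀).P X j c := algPred_iff.2 h

/-- The push-forward is transformed into the operator given by the transposed cycle. -/
lemma spec_push (f : X ⟶ Y) {z : ((S.o X).prod (S.o Y)).Cycles}
    (hz : ((S.o X).prod (S.o Y)).IsCyc Y.dim z)
    (h : Induces (S.e X) (S.e Y) (W.map f) (W₀.map (snd (S.o X) (S.o Y)))
      (W₀.push (fst (S.o X) (S.o Y))) (W₀.cl ((S.o X).prod (S.o Y)) z)) (a : W.H X) :
    S.e Y (W.push f a) = W₀.push (snd (S.o X) (S.o Y))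
      (W₀.map (fst (S.o X) (S.o Y)) (S.e X a) * W₀.cl ((S.o X).prod (S.o Y)) z) := by
  apply W₀.tr_ext
  intro b
  obtain ⟨b, rfl⟩ := (S.e Y).surjective b
  have hcl : W₀.cl ((S.o X).prod (S.o Y)) z ∈ W₀.gr ((S.o X).prod (S.o Y)) (2 * Y.dim) :=
    W₀.cl_mem hz
  rw [← map_mul, (S.spec Y).tr, W.tr_push, ← (S.spec X).tr, map_mul, h b, W₀.tr_push]
  rw [tr_mul_push, mul_assoc]

/-- The classes of algebraic cycles of the reductions. -/
noncomputable def specPred : ClassPred W where
  P := IsAlgOn S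
  gr {X j c} h := ((S.spec X).gr _ _).1 (span_le_gr _ j h)
  zero {X j} := by
    change S.e X 0 ∈ _
    rw [map_zero]
    exact Submodule.zero_mem _
  add {X j a b} ha hb := by
    change S.e X (a + b) ∈ _
    rw [map_add]
    exact Submodule.add_mem _ ha hb
  smul {X j} r {a} ha := by
    change S.e X (r • a) ∈ _
    rw [(S.spec X).semi]
    exact Submodule.smul_mem _ _ ha
  cl {X j z} hz := by
    obtain ⟨z', hz', h⟩ := (S.spec X).cyc j z hz
    change S.e X (W.cl X z) ∈ _
    rw [← h]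
    exact algPred_iff.1 ((algPred W₀).cl hz')
  mul {X i j a b} ha hb := by
    change S.e X (a * b) ∈ _
    rw [map_mul]
    exact algPred_iff.1 ((algPred W₀).mul (alg_of_spec ha) (alg_of_spec hb))
  map {X Y} f {j a} ha := by
    obtain ⟨z, hz, h⟩ := S.graph f
    change S.e X (W.map f a) ∈ _
    rw [h a]
    refine algPred_iff.1 ((algPred W₀).push _ ?_ ((algPred W₀).mul ((algPred W₀).cl hz)
      ((algPred W₀).map _ (alg_of_spec ha))))
    rw [dim_prod, S.dim Y, S.dim X]
    ring
  push {X Y} f {j l} hl {a} ha := by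
    obtain ⟨z, hz, h⟩ := S.graph f
    change S.e Y (W.push f a) ∈ _
    rw [spec_push S f hz h]
    refine algPred_iff.1 ((algPred W₀).push _ ?_ ((algPred W₀).mul
      ((algPred W₀).map _ (alg_of_spec ha)) ((algPred W₀).cl hz)))
    rw [dim_prod, S.dim Y, S.dim X]
    omega

end Spec

end Pool.Agent.Q57.SP
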