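import Pool.Agent.Q55.GaloisDefs
import Pool.Agent.Y133.Half.PairDefs

/-!
# Specialization of cohomology classes and of algebraic cycles: definitions

In the intended use `k` is the algebraic closure of a number field or of a finitely generated field,
`𝒱` consists of the smooth projective varieties over `k` with good reduction at a point `v`, `𝒱₀` of the
smooth projective varieties over the algebraic closure of the residue field of `v`, and `o X` is the
reduction of `X`.
-/

open CategoryTheory AlgebraicGeometry

universe u v u₀ v₀ w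

namespace Pool.Agent.Q57.SP

open Pool.Agent.H914 Pool.Agent.H914.VarClass Pool.Agent.H914.VarClass.Obj
  Pool.Agent.H914.WeilCohomology
open Pool.Agent.Q55 (GaloisAction SubAction)

section Alg

variable {K L A B Z Z' : Type*} [Field K] [Field L] [Ring A] [Ring B] [Algebra K A] [Algebra L B]
  [AddCommGroup Z] [AddCommGroup Z']

/-- The ring isomorphism `e` is semilinear for the isomorphism `s` of the coefficients, preserves the
degrees and the orientations, and maps classes of cycles to classes of cycles of the same
codimension. -/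
structure IsSpec (s : K ≃+* L) (e : A ≃+* B) (gr : ℕ → Submodule K A) (gr' : ℕ → Submodule L B)
    (t : A →ₗ[K] K) (t' : B →ₗ[L] L) (cl : Z →+ A) (cl' : Z' →+ B) (cyc : ℕ → Z → Prop)
    (cyc' : ℕ → Z' → Prop) : Prop where
  semi : ∀ (r : K) (a : A), e (r • a) = s r • e a
  gr : ∀ (i : ℕ) (a : A), e a ∈ gr' i ↔ a ∈ gr i
  tr : ∀ a, t' (e a) = s (t a)
  cyc : ∀ j z, cyc j z → ∃ z', cyc' j z' ∧ cl' z' = e (cl z)

/-- The class `g` on a product, with the projections given by `p`, `p'` (pull-backs) and `q`
(push-forward), induces the homomorphism `f` under the isomorphisms `e` and `e'`. -/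
def Induces {A' B' D : Type*} [Ring A'] [Ring B'] [Ring D] [Algebra K A'] [Algebra L B'] [Algebra L D]
    (e : A ≃+* B) (e' : A' ≃+* B') (f : A' →ₐ[K] A) (p' : B' →ₐ[L] D) (q : D →ₗ[L] B) (g : D) :
    Prop :=
  ∀ a, e (f a) = q (g * p' (e' a))

/-- There is a subgroup of finite index the elements of which act on `A` and commute with `h`. -/
def VirtuallyCentral {Γ : Type*} [Group Γ] (ρ : SubAction Γ K A) (h : Γ) : Prop :=
  ∃ Δ : Subgroup Γ, Δ.FiniteIndex ∧ Δ ≤ ρ.dom ∧
    ∀ g ∈ Δ, ∀ a, ρ.act g (ρ.act h a) = ρ.act h (ρ.act g a)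

end Alg

variable {k : Type u} [Field k] {𝒱 : VarClass k} {ops : CycleOps 𝒱}
  {k₀ : Type u₀} [Field k₀] {𝒱₀ : VarClass k₀} {ops₀ : CycleOps 𝒱₀}

/-- A specialization: for each variety `X` its reduction `o X`, with an isomorphism between the
cohomology algebras of `X` and of `o X` which respects the degrees, the orientations and the classes
of cycles; and the isomorphisms transform the pull-back by a morphism `X ⟶ Y` into the operator given
by a cycle on `o X × o Y` (the specialization of its graph). -/
structure Specialization (W : WeilCohomology.{u, v} ops) (W₀ : WeilCohomology.{u₀, v₀} ops₀) where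
  /-- the reduction -/
  o : 𝒱.Obj → 𝒱₀.Obj
  /-- the isomorphism of the coefficients -/
  s : W.K ≃+* W₀.K
  /-- the isomorphisms of the cohomology algebras -/
  e : ∀ X : 𝒱.Obj, W.H X ≃+* W₀.H (o X)
  dim : ∀ X, (o X).dim = X.dim
  spec : ∀ X, IsSpec s (e X) (W.gr X) (W₀.gr (o X)) (W.tr X) (W₀.tr (o X)) (W.cl X)
    (W₀.cl (o X)) X.IsCyc (o X).IsCyc
  graph : ∀ {X Y : 𝒱.Obj} (f : X ⟶ Y), ∃ z, ((o X).prod (o Y)).IsCyc Y.dim z ∧
    Induces (e X) (e Y) (W.map f) (W₀.map (snd (o X) (o Y))) (W₀.push (fst (o X) (o Y)))
      (W₀.cl ((o X).prod (o Y)) z)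

variable {W : WeilCohomology.{u, v} ops} {W₀ : WeilCohomology.{u₀, v₀} ops₀}

/-- The class `c` on `X` is a linear combination of classes of algebraic cycles of codimension `j` on
the reduction of `X`. -/
def IsAlgOn (S : Specialization W W₀) (X : 𝒱.Obj) (j : ℕ) (c : W.H X) : Prop :=
  S.e X c ∈ spanCycles W₀ (S.o X) j

/-- The element `h` of `Γ` acts on `H(X)` as an operator given by a class on `X × X` which is a linear
combination of classes of algebraic cycles on the reduction of `X × X`. In the intended use `h` is the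
(geometric) Frobenius element of a finite residue field, and the cycle is the graph of the Frobenius
endomorphism of the reduction. -/
def ActsByCycle {Γ : Type w} [Group Γ] (S : Specialization W W₀) (G : GaloisAction W Γ) (X : 𝒱.Obj)
    (h : Γ) : Prop :=
  h ∈ (G.ρ X).dom ∧ ∃ c, IsAlgOn S (X.prod X) X.dim c ∧
    ∀ a, W.push (snd X X) (c * W.map (fst X X) a) = (G.ρ X).act h a

end Pool.Agent.Q57.SP
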