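import Pool.Agent.Q57.SP.Alg

/-!
# The specialization law
-/

open CategoryTheory AlgebraicGeometry

universe u v u₀ v₀ w

namespace Pool.Agent.Q57.SP

open Module
open Pool.Agent.H914 Pool.Agent.H914.VarClass Pool.Agent.H914.VarClass.Obj
  Pool.Agent.H914.WeilCohomology
open Pool.Agent.Q55 (GaloisAction SubAction Virtually IsTate tatePred)
open Pool.Agent.Y133.Half Pool.Agent.H281R3.HT Pool.Agent.W536.RR
open Pool.Agent.Q57.ZI
open Pool.Agent.Q57.OP

variable {k : Type u} [Field k] {𝒱 : VarClass k} {ops : CycleOps 𝒱}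
  {k₀ : Type u₀} [Field k₀] {𝒱₀ : VarClass k₀} {ops₀ : CycleOps 𝒱₀}
  {W : WeilCohomology.{u, v} ops} {W₀ : WeilCohomology.{u₀, v₀} ops₀}
  (S : Specialization W W₀) {X Y Z : 𝒱.Obj}

lemma mem_sp_iff (c : W.H X) : c ∈ (specPred S).sp X ↔ S.e X c ∈ algSpan W₀ (S.o X) := by
  constructor
  · intro h
    refine ClassPred.sp_ind (Q := specPred S) (q := fun c => S.e X c ∈ algSpan W₀ (S.o X))
      ?_ ?_ ?_ h
    · intro j c hc
      exact (algPred_iff.2 hc).2
    · rw [map_zero]; exact Submodule.zero_mem _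
    · intro a b ha hb; rw [map_add]; exact Submodule.add_mem _ ha hb
  · intro h
    have key : ∀ y ∈ algSpan W₀ (S.o X), (S.e X).symm y ∈ (specPred S).sp X := by
      intro y hy
      refine algSpan_induction (p := fun y => (S.e X).symm y ∈ (specPred S).sp X) ?_ ?_ ?_ ?_ hy
      · rw [map_zero]; exact Submodule.zero_mem _
      · intro a b ha hb; rw [map_add]; exact Submodule.add_mem _ ha hb
      · intro t a ha
        have h1 : (S.e X).symm (t • a) = S.s.symm t • (S.e X).symm a := by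
          apply (S.e X).injective
          rw [(S.spec X).semi, RingEquiv.apply_symm_apply, RingEquiv.apply_symm_apply,
            RingEquiv.apply_symm_apply]
        rw [h1]
        exact Submodule.smul_mem _ _ ha
      · intro j z hz
        refine ClassPred.sp_of (Q := specPred S) (j := j) ?_
        change S.e X ((S.e X).symm (W₀.cl (S.o X) z)) ∈ _
        rw [RingEquiv.apply_symm_apply]
        exact algPred_iff.1 ((algPred W₀).cl hz)
    have h2 := key _ h
    rwa [RingEquiv.symm_apply_apply] at h2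

lemma dim_spec (X : 𝒱.Obj) : dimBy W (specPred S).P X = algDim W₀ (S.o X) := by
  rw [ClassPred.dimBy_eq, algDim_eq]
  let j : (specPred S).sys.C X ≃+ algSpan W₀ (S.o X) :=
    { toFun := fun c => ⟨S.e X c, (mem_sp_iff S _).1 c.2⟩
      invFun := fun y => ⟨(S.e X).symm y, (mem_sp_iff S _).2 (by
        rw [RingEquiv.apply_symm_apply]; exact y.2)⟩
      left_inv := fun c => Subtype.ext ((S.e X).symm_apply_apply _)
      right_inv := fun y => Subtype.ext ((S.e X).apply_symm_apply _)
      map_add' := fun a b => Subtype.ext (map_add (S.e X) _ _) }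
  have h := lift_rank_eq_of_equiv_equiv S.s j S.s.bijective fun r m =>
    Subtype.ext ((S.spec X).semi r (m : W.H X))
  have h2 := congrArg Cardinal.toNat h
  rwa [Cardinal.toNat_lift, Cardinal.toNat_lift] at h2

variable {Γ : Type w} [Group Γ] (G : GaloisAction W Γ)

theorem spec_law (X : 𝒱.Obj) [Nontrivial (W.H X)] : ∃ N : ℕ∞, 1 ≤ N ∧
    HasIndex (fun n => algDim W₀ (S.o (pw X n))) (fun n => cycRank ops (pw X n)) N ∧
    (N = 1 ↔ ∀ n, (∀ j c, IsAlgOn S (pw X n) j c → c ∈ spanCycles W (pw X n) j) ∧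
      HomEqNum W (pw X n)) ∧
    (N ≠ ⊤ → (∀ n, HomEqNum W (pw X n)) ∧
      (∀ n j c, IsAlgOn S (pw X n) j c → IsTate G (pw X n) j c) ∧
      GeneratedOver W (fun Z j c => c ∈ spanCycles W Z j) (IsAlgOn S) X N ∧
      ∀ h, ActsByCycle S G X h → VirtuallyCentral (G.ρ X) h) := by
  obtain ⟨N, h1, h2, h3, h4⟩ := full_index (specPred S) X
  simp only [dim_spec] at h2
  have hP : (algPred W).P = fun (Z : 𝒱.Obj) (j : ℕ) (c : W.H Z) => c ∈ spanCycles W Z j := by
    funext Z j c
    exact propext algPred_iff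
  have e1 : N ≠ ⊤ → ∀ n j c, IsAlgOn S (pw X n) j c → IsTate G (pw X n) j c := by
    intro hN n j c hc
    refine tate_of_generated G (Q := algPred W) (R := specPred S) ?_ (h4 hN).2 hc
    intro Z j z hz
    exact ClassPred.of_sp (Q := tatePred G) (ClassPred.alg_le (Q := tatePred G) hz.2) hz.1
  refine ⟨N, h1, h2, h3, fun hN => ⟨(h4 hN).1, e1 hN, ?_, ?_⟩⟩
  · rw [← hP]
    exact (h4 hN).2
  · rintro h ⟨hh, c, hc, hc'⟩
    obtain ⟨Δ, hΔ, hu⟩ := exists_uniform G (X := X)
    refine ⟨Δ, hΔ, fun g hg => (hu g hg).1, fun g hg a => ?_⟩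
    have h5 := (hu g hg).2 c (e1 hN 1 X.dim c hc) a
    have h6 : ∀ a, W.corr c a = (G.ρ X).act h a := hc'
    rw [h6, h6] at h5
    exact h5.symm

end Pool.Agent.Q57.SP
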