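import Pool.Agent.Q57.SP.Defs

/-!
# The variational Hodge conjecture: definitions

In the intended use `S` is a smooth connected complex variety with a point `0`, `k` is the algebraic
closure of the function field of `S`, `𝒱` consists of the generic fibres of smooth projective families
over finite étale coverings of `S`, `𝒱₀` consists of the smooth projective complex varieties, `o X` is
the fibre over (a point over) `0`, and `Γ` is the fundamental group of `S`.
-/

open CategoryTheory AlgebraicGeometry

universe u v u₀ v₀ w

namespace Pool.Agent.Q57.SP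

open Pool.Agent.H914 Pool.Agent.H914.VarClass Pool.Agent.H914.VarClass.Obj
  Pool.Agent.H914.WeilCohomology
open Pool.Agent.Q55 (GaloisAction SubAction Virtually)

variable {k : Type u} [Field k] {𝒱 : VarClass k} {ops : CycleOps 𝒱}
  {k₀ : Type u₀} [Field k₀] {𝒱₀ : VarClass k₀} {ops₀ : CycleOps 𝒱₀}
  {W : WeilCohomology.{u, v} ops} {W₀ : WeilCohomology.{u₀, v₀} ops₀}

/-- The class `c` on `X` has the property `P` on the reduction of `X`. -/
def OnRed (S : Specialization W W₀) (P : ∀ X : 𝒱₀.Obj, ℕ → W₀.H X → Prop) (X : 𝒱.Obj) (j : ℕ)
    (c : W.H X) : Prop :=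
  P (S.o X) j (S.e X c)

/-- The elements of a subgroup of finite index fix `c`. -/
def IsFlat {Γ : Type w} [Group Γ] (G : GaloisAction W Γ) (X : 𝒱.Obj) (c : W.H X) : Prop :=
  Virtually fun g => g ∈ (G.ρ X).dom → (G.ρ X).act g c = c

/-- The flat algebraic classes: the algebraic classes on the reduction of `X` which are fixed by a
subgroup of finite index. -/
def IsFlatAlg (S : Specialization W W₀) {Γ : Type w} [Group Γ] (G : GaloisAction W Γ) (X : 𝒱.Obj)
    (j : ℕ) (c : W.H X) : Prop :=
  IsAlgOn S X j c ∧ IsFlat G X c

/-- The variational Hodge conjecture for `X` at the given point: all flat algebraic classes are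
classes of cycles on `X`. -/
def VHC (S : Specialization W W₀) {Γ : Type w} [Group Γ] (G : GaloisAction W Γ) (X : 𝒱.Obj) : Prop :=
  ∀ j c, IsFlatAlg S G X j c → c ∈ spanCycles W X j

end Pool.Agent.Q57.SP
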