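import Pool.Agent.Q57.SP.Fin
import Pool.Agent.Q57.SP.VDefs

/-!
# Classes on the reduction with a given property
-/

open CategoryTheory AlgebraicGeometry

universe u v u₀ v₀ w

namespace Pool.Agent.Q57.SP

open Module
open Pool.Agent.H914 Pool.Agent.H914.VarClass Pool.Agent.H914.VarClass.Obj
  Pool.Agent.H914.WeilCohomology
open Pool.Agent.Y133.Half

variable {k : Type u} [Field k] {𝒱 : VarClass k} {ops : CycleOps 𝒱}
  {k₀ : Type u₀} [Field k₀] {𝒱₀ : VarClass k₀} {ops₀ : CycleOps 𝒱₀}
  {W : WeilCohomology.{u, v} ops} {W₀ : WeilCohomology.{u₀, v₀} ops₀}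
  (S : Specialization W W₀) (Q : ClassPred W₀) {X Y Z : 𝒱.Obj}

/-- The classes on the reductions with a given property. -/
noncomputable def redPred : ClassPred W where
  P := OnRed S Q.P
  gr {X j c} h := ((S.spec X).gr _ _).1 (Q.gr h)
  zero {X j} := by
    change Q.P _ _ (S.e X 0)
    rw [map_zero]
    exact Q.zero
  add {X j a b} ha hb := by
    change Q.P _ _ (S.e X (a + b))
    rw [map_add]
    exact Q.add ha hb
  smul {X j} r {a} ha := by
    change Q.P _ _ (S.e X (r • a))
    rw [(S.spec X).semi]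
    exact Q.smul _ ha
  cl {X j z} hz := by
    obtain ⟨z', hz', h⟩ := (S.spec X).cyc j z hz
    change Q.P _ _ (S.e X (W.cl X z))
    rw [← h]
    exact Q.cl hz'
  mul {X i j a b} ha hb := by
    change Q.P _ _ (S.e X (a * b))
    rw [map_mul]
    exact Q.mul ha hb
  map {X Y} f {j a} ha := by
    obtain ⟨z, hz, h⟩ := S.graph f
    change Q.P _ _ (S.e X (W.map f a))
    rw [h a]
    refine Q.push _ ?_ (Q.mul (Q.cl hz) (Q.map _ ha))
    rw [dim_prod, S.dim Y, S.dim X]
    ring
  push {X Y} f {j l} hl {a} ha := by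
    obtain ⟨z, hz, h⟩ := S.graph f
    change Q.P _ _ (S.e Y (W.push f a))
    rw [spec_push S f hz h]
    refine Q.push _ ?_ (Q.mul (Q.map _ ha) (Q.cl hz))
    rw [dim_prod, S.dim Y, S.dim X]
    omega

lemma mem_red_iff (c : W.H X) : c ∈ (redPred S Q).sp X ↔ S.e X c ∈ Q.sp (S.o X) := by
  constructor
  · intro h
    refine ClassPred.sp_ind (Q := redPred S Q) (q := fun c => S.e X c ∈ Q.sp (S.o X))
      ?_ ?_ ?_ h
    · intro j c hc
      exact ClassPred.sp_of (Q := Q) (j := j) hc
    · rw [map_zero]; exact Submodule.zero_mem _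
    · intro a b ha hb; rw [map_add]; exact Submodule.add_mem _ ha hb
  · intro h
    have key : ∀ y ∈ Q.sp (S.o X), (S.e X).symm y ∈ (redPred S Q).sp X := by
      intro y hy
      refine ClassPred.sp_ind (Q := Q) (q := fun y => (S.e X).symm y ∈ (redPred S Q).sp X)
        ?_ ?_ ?_ hy
      · intro j y hy
        refine ClassPred.sp_of (Q := redPred S Q) (j := j) ?_
        change Q.P _ _ (S.e X ((S.e X).symm y))
        rw [RingEquiv.apply_symm_apply]
        exact hy
      · rw [map_zero]; exact Submodule.zero_mem _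
      · intro a b ha hb; rw [map_add]; exact Submodule.add_mem _ ha hb
    have h2 := key _ h
    rwa [RingEquiv.symm_apply_apply] at h2

lemma dim_red (X : 𝒱.Obj) : dimBy W (redPred S Q).P X = dimBy W₀ Q.P (S.o X) := by
  rw [ClassPred.dimBy_eq, ClassPred.dimBy_eq]
  let j : (redPred S Q).sys.C X ≃+ Q.sys.C (S.o X) :=
    { toFun := fun c => ⟨S.e X c, (mem_red_iff S Q _).1 c.2⟩
      invFun := fun y => ⟨(S.e X).symm y, (mem_red_iff S Q _).2 (by
        rw [RingEquiv.apply_symm_apply]; exact y.2)⟩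
      left_inv := fun c => Subtype.ext ((S.e X).symm_apply_apply _)
      right_inv := fun y => Subtype.ext ((S.e X).apply_symm_apply _)
      map_add' := fun a b => Subtype.ext (map_add (S.e X) _ _) }
  have h := lift_rank_eq_of_equiv_equiv S.s j S.s.bijective fun r m =>
    Subtype.ext ((S.spec X).semi r (m : W.H X))
  have h2 := congrArg Cardinal.toNat h
  rwa [Cardinal.toNat_lift, Cardinal.toNat_lift] at h2

end Pool.Agent.Q57.SP
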