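import Pool.Agent.Q57.SP.Gen
import Pool.Agent.Q57.ZI.TFin

/-!
# An index law for the variational Hodge conjecture
-/

open CategoryTheory AlgebraicGeometry

universe u v u₀ v₀ w

namespace Pool.Agent.Q57.SP

open Module
open Pool.Agent.H914 Pool.Agent.H914.VarClass Pool.Agent.H914.VarClass.Obj
  Pool.Agent.H914.WeilCohomology
open Pool.Agent.Q55 (GaloisAction SubAction Virtually IsTate tatePred)
open Pool.Agent.Y133.Half
open Pool.Agent.Q57.ZI
open Pool.Agent.Y121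

variable {k : Type u} [Field k] {𝒱 : VarClass k} {ops : CycleOps 𝒱}
  {k₀ : Type u₀} [Field k₀] {𝒱₀ : VarClass k₀} {ops₀ : CycleOps 𝒱₀}
  {W : WeilCohomology.{u, v} ops} {W₀ : WeilCohomology.{u₀, v₀} ops₀}

/-- The classes with two properties. -/
noncomputable def andPred (P Q : ClassPred W) : ClassPred W where
  P X j c := P.P X j c ∧ Q.P X j c
  gr h := P.gr h.1
  zero := ⟨P.zero, Q.zero⟩
  add ha hb := ⟨P.add ha.1 hb.1, Q.add ha.2 hb.2⟩
  smul r _ ha := ⟨P.smul r ha.1, Q.smul r ha.2⟩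
  cl hz := ⟨P.cl hz, Q.cl hz⟩
  mul ha hb := ⟨P.mul ha.1 hb.1, Q.mul ha.2 hb.2⟩
  map {X Y} f {j a} ha := ⟨P.map f ha.1, Q.map f ha.2⟩
  push {X Y} f {j l} hl {a} ha := ⟨P.push f hl ha.1, Q.push f hl ha.2⟩

section Flat

variable (S : Specialization W W₀) {Γ : Type w} [Group Γ] (G : GaloisAction W Γ)
  (hχ : ∀ g, G.χ g = 1)

include hχ in
lemma tate_iff_flat {X : 𝒱.Obj} {j : ℕ} {c : W.H X} :
    IsTate G X j c ↔ c ∈ W.gr X (2 * j) ∧ IsFlat G X c := by
  have h : ∀ g, (G.ρ X).Twists G.χ j c g ↔ (g ∈ (G.ρ X).dom → (G.ρ X).act g c = c) := by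
    intro g
    unfold SubAction.Twists
    rw [hχ g, Units.val_one, one_pow, one_smul]
  refine and_congr_right fun _ => exists_congr fun Δ => and_congr_right fun _ =>
    forall_congr' fun g => forall_congr' fun _ => h g

/-- The flat algebraic classes. -/
noncomputable def flatPred : ClassPred W := andPred (specPred S) (tatePred G)

include hχ in
lemma flat_fun : (flatPred S G).P = IsFlatAlg S G := by
  funext X j c
  apply propext
  change IsAlgOn S X j c ∧ IsTate G X j c ↔ _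
  rw [tate_iff_flat G hχ]
  exact ⟨fun h => ⟨h.1, h.2.2⟩, fun h => ⟨h.1, (specPred S).gr h.1, h.2⟩⟩

lemma alg_tate {Z : 𝒱.Obj} {j : ℕ} {z : W.H Z} (hz : (algPred W).P Z j z) : IsTate G Z j z :=
  ClassPred.of_sp (Q := tatePred G) (ClassPred.alg_le (Q := tatePred G) hz.2) hz.1

lemma dimBy_mono' {Q R : ClassPred W} {Z : 𝒱.Obj} (h : ∀ j c, Q.P Z j c → R.P Z j c) :
    dimBy W Q.P Z ≤ dimBy W R.P Z := by
  rw [ClassPred.dimBy_eq, ClassPred.dimBy_eq]
  exact Submodule.finrank_mono (Submodule.span_mono fun c ⟨j, hc⟩ => ⟨j, h j c hc⟩)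

include hχ in
theorem vhc_law (X : 𝒱.Obj) [Nontrivial (W.H X)] : ∃ N N' : ℕ∞, 1 ≤ N ∧ N ≤ N' ∧
    HasIndex (fun n => dimBy W (IsFlatAlg S G) (pw X n)) (fun n => cycRank ops (pw X n)) N ∧
    HasIndex (fun n => algDim W₀ (S.o (pw X n))) (fun n => cycRank ops (pw X n)) N' ∧
    (N = 1 ↔ ∀ n, VHC S G (pw X n) ∧ HomEqNum W (pw X n)) ∧
    (N ≠ ⊤ → (∀ n, HomEqNum W (pw X n)) ∧ (N = 1 ↔ ∀ n, VHC S G (pw X n)) ∧
      GeneratedOver W (fun Z j c => c ∈ spanCycles W Z j) (IsFlatAlg S G) X N) ∧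
    (N' ≠ ⊤ → N' = N ∧ ∀ n j c, IsAlgOn S (pw X n) j c → IsFlat G (pw X n) c) := by
  obtain ⟨N, h1, h2, h3, h4⟩ := full_index (flatPred S G) X
  obtain ⟨N', k1, k2, k3, k4⟩ := spec_law S G X
  rw [flat_fun S G hχ] at h2 h3 h4
  have hP : (algPred W).P = fun (Z : 𝒱.Obj) (j : ℕ) (c : W.H Z) => c ∈ spanCycles W Z j := by
    funext Z j c
    exact propext algPred_iff
  rw [hP] at h4
  have hle : N ≤ N' := by
    refine index_le h2 k2 fun n => ?_
    have e1 : algDim W₀ (S.o (pw X n)) = dimBy W (specPred S).P (pw X n) :=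
      (dim_spec S _).symm
    rw [e1, ← flat_fun S G hχ]
    exact dimBy_mono' (Q := flatPred S G) (R := specPred S) fun j c hc => hc.1
  refine ⟨N, N', h1, hle, h2, k2, h3, fun hN => ⟨(h4 hN).1, ?_, (h4 hN).2⟩, fun hN => ?_⟩
  · rw [h3]
    exact forall_congr' fun n => and_iff_left ((h4 hN).1 n)
  · have e1 := (k4 hN).2.1
    have e2 : ∀ n j c, IsAlgOn S (pw X n) j c → IsFlat G (pw X n) c := fun n j c hc =>
      ((tate_iff_flat G hχ).1 (e1 n j c hc)).2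
    refine ⟨le_antisymm (index_le k2 h2 fun n => ?_) hle, e2⟩
    have e3 : algDim W₀ (S.o (pw X n)) = dimBy W (specPred S).P (pw X n) :=
      (dim_spec S _).symm
    rw [e3, ← flat_fun S G hχ]
    exact dimBy_mono' (Q := specPred S) (R := flatPred S G) fun j c hc => ⟨hc, e1 n j c hc⟩

end Flat

section Hodge

variable {T₀ : AHS.HodgeTheory ops₀} (S : Specialization W T₀.W) {Γ : Type w} [Group Γ]
  (G : GaloisAction W Γ) (hχ : ∀ g, G.χ g = 1)

include hχ in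
theorem hodge_law (X : 𝒱.Obj) [Nontrivial (W.H X)] : ∃ N N' M : ℕ∞, 1 ≤ N ∧ N ≤ N' ∧ N' ≤ M ∧
    HasIndex (fun n => dimBy W (IsFlatAlg S G) (pw X n)) (fun n => cycRank ops (pw X n)) N ∧
    HasIndex (fun n => algDim T₀.W (S.o (pw X n))) (fun n => cycRank ops (pw X n)) N' ∧
    HasIndex (fun n => dimBy T₀.W (AHS.IsHodge T₀) (S.o (pw X n)))
      (fun n => cycRank ops (pw X n)) M ∧
    (N = 1 ↔ ∀ n, VHC S G (pw X n) ∧ HomEqNum W (pw X n)) ∧
    (N ≠ ⊤ → (∀ n, HomEqNum W (pw X n)) ∧ (N = 1 ↔ ∀ n, VHC S G (pw X n)) ∧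
      GeneratedOver W (fun Z j c => c ∈ spanCycles W Z j) (IsFlatAlg S G) X N) ∧
    (N' ≠ ⊤ → N' = N ∧ ∀ n j c, IsAlgOn S (pw X n) j c → IsFlat G (pw X n) c) ∧
    (M ≠ ⊤ → ∀ n j c, OnRed S (AHS.IsHodge T₀) (pw X n) j c → IsFlat G (pw X n) c) := by
  obtain ⟨N, N', h1, h2, h3, h4, h5, h6, h7⟩ := vhc_law S G hχ X
  set Q : ClassPred T₀.W := AH.hodgePred (AHS.toH T₀) with hQ
  have hQP : Q.P = AHS.IsHodge T₀ := rfl
  obtain ⟨M, k1, k2, k3, k4⟩ := full_index (redPred S Q) X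
  simp only [dim_red] at k2
  rw [hQP] at k2
  refine ⟨N, N', M, h1, h2, ?_, h3, h4, k2, h5, h6, h7, fun hM n j c hc => ?_⟩
  · refine index_le h4 k2 fun n => ?_
    rw [algDim_eq, ← hQP, ClassPred.dimBy_eq]
    exact Submodule.finrank_mono ClassPred.alg_le
  · have h : IsTate G (pw X n) j c :=
      tate_of_generated G (Q := algPred W) (R := redPred S Q) (fun Z j z hz => alg_tate G hz)
        (k4 hM).2 hc
    exact ((tate_iff_flat G hχ).1 h).2

end Hodge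

end Pool.Agent.Q57.SP
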